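import Pool.Agent.NGM.StmtsK

/-!
# NGM, row BIL: the form is symmetric, bilinear and definite
-/

set_option autoImplicit false

namespace Pool.Agent.NGM.H49

open Pool.Agent.NGM
open scoped Pointwise Classical
open Filter Topology

variable {Q : Type*} [Group Q]

theorem pow_add (K : Finset Q) (n : ℕ) : ∀ f g : Q → ℝ,
    (av K)^[n] (f + g) = (av K)^[n] f + (av K)^[n] g := by
  induction n with
  | zero => intro f g; rfl
  | succ n ih =>
    intro f g
    rw [Function.iterate_succ_apply, Function.iterate_succ_apply, Function.iterate_succ_apply,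
      av_add, ih]

theorem pow_smul (K : Finset Q) (n : ℕ) : ∀ (c : ℝ) (f : Q → ℝ),
    (av K)^[n] (c • f) = c • (av K)^[n] f := by
  induction n with
  | zero => intro c f; rfl
  | succ n ih =>
    intro c f
    rw [Function.iterate_succ_apply, Function.iterate_succ_apply, av_smul, ih]

theorem pow_nonneg (K : Finset Q) (n : ℕ) : ∀ f : Q → ℝ, (∀ x, 0 ≤ f x) →
    ∀ x, 0 ≤ (av K)^[n] f x := by
  induction n with
  | zero => intro f hf x; exact hf x
  | succ n ih =>
    intro f hf x
    rw [Function.iterate_succ_apply]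
    refine ih _ (fun y => ?_) x
    unfold av
    exact mul_nonneg (inv_nonneg.mpr (Nat.cast_nonneg _)) (Finset.sum_nonneg fun s _ => hf _)

theorem bil' {K : Finset Q} (hK : GenSet K) (U : Filter ℕ) (B : VV K → VV K → ℝ) (c : ℝ)
    (hB : Frm K hK U B c) :
    (∀ f h, B f h = B h f) ∧ (∀ f h k, B (f + h) k = B f k + B h k) ∧
    (∀ (r : ℝ) (f h : VV K), B (r • f) h = r * B f h) ∧ (∀ f, 0 ≤ B f f) ∧
    ∀ f, B f f = 0 → f = 0 := by
  have : U.NeBot := hB.ne
  refine ⟨?_, ?_, ?_, ?_, ?_⟩
  · intro f h
    refine tendsto_nhds_unique (hB.lim f h) ?_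
    have := hB.lim h f
    simpa only [mul_comm] using this
  · intro f h k
    refine tendsto_nhds_unique (hB.lim (f + h) k) ?_
    refine ((hB.lim f k).add (hB.lim h k)).congr ?_
    intro n
    have e : (fun x => (f + h).1 x * k.1 x) =
        (fun x => f.1 x * k.1 x) + (fun x => h.1 x * k.1 x) := by
      funext x
      show (f.1 x + h.1 x) * k.1 x = f.1 x * k.1 x + h.1 x * k.1 x
      ring
    rw [e, pow_add, Pi.add_apply, add_div]
  · intro r f h
    refine tendsto_nhds_unique (hB.lim (r • f) h) ?_
    refine ((hB.lim f h).const_mul r).congr ?_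
    intro n
    have e : (fun x => (r • f).1 x * h.1 x) = r • (fun x => f.1 x * h.1 x) := by
      funext x
      show (r * f.1 x) * h.1 x = r * (f.1 x * h.1 x)
      ring
    rw [e, pow_smul, Pi.smul_apply, smul_eq_mul, mul_div_assoc]
  · intro f
    refine ge_of_tendsto' (hB.lim f f) ?_
    intro n
    exact div_nonneg (pow_nonneg K _ _ (fun x => mul_self_nonneg _) 1) (Nat.cast_nonneg n)
  · intro f hf
    have key : ∀ g : Q, ∀ s ∈ K, f.1 (g * s) = f.1 g := by
      intro g s hs
      have h1 := hB.pos ⟨tr g f.1, tr_mem hK g f.2⟩ s hs 1 hK.one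
      rw [hB.inv g f, hf, mul_zero, mul_one] at h1
      have h2 : tr g f.1 s = 0 := by
        have h3 : (tr g f.1 s) ^ 2 = 0 := le_antisymm h1 (sq_nonneg _)
        exact pow_eq_zero_iff (two_ne_zero) |>.mp h3
      have h4 : f.1 (g * s) - f.1 g = 0 := h2
      linarith
    let H : Subgroup Q :=
      { carrier := {s | ∀ g, f.1 (g * s) = f.1 g}
        one_mem' := fun g => by rw [mul_one]
        mul_mem' := by
          intro a b ha hb g
          rw [← mul_assoc, hb, ha]
        inv_mem' := by
          intro a ha g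
          have h := ha (g * a⁻¹)
          rw [inv_mul_cancel_right] at h
          exact h.symm }
    have hH : H = ⊤ := by
      rw [eq_top_iff, ← hK.top, Subgroup.closure_le]
      intro s hs g
      exact key g s hs
    apply Subtype.ext
    funext x
    have hx : x ∈ H := by rw [hH]; exact Subgroup.mem_top x
    have h1 := hx 1
    rw [one_mul] at h1
    have h2 : f.1 1 = 0 := f.2.1
    show f.1 x = 0
    rw [h1, h2]

theorem bil.{u} (_hWK : WkStmt.{u}) : BilStmt.{u} := by
  intro Q _ K hK U B c hB
  exact bil' hK U B c hB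

end Pool.Agent.NGM.H49
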